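import Pool.Agent.TH733.RG.Main
import Pool.Agent.TH733.RG.Compl
import Pool.Agent.H249R3.Gau.NE

/-!
# Common translates of independent random oracles: `NE` and `coNE`

By Jones and Selman the complement of every spectrum is a spectrum if and only if `NE = coNE`. This
file treats `NE = coNE` relative to oracles. `xor2 A B` is the symmetric difference of the oracles
`A` and `B`, the translate of `A` by `B`.

* For every sequence `B 0, B 1, ...` of oracles there is one oracle `A` such that `NE = coNE`
  relative to every translate of `A` by a `B i`.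
* Let the `B i` be independent random oracles. Almost surely, for every set `I` of numbers there is
  one oracle `A` such that, relative to the translate by `B i`, for all `i` in `I`, `E = ESPACE`, so
  `NE = coNE`, while for all `i` outside `I`, `NE` is not closed under complements.

So the set of the `i` with `NE = coNE` relative to the translate by `B i` can be prescribed.

Proof. `A` codes the computations relative to its translates by the `B i`, `i ∈ I`, masked by
`B i`; its dependence on `I` is very slow, since the set of the oracles with `NE = coNE` is a null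
set only for gauges below `ε log log N` (starting files `H249R3`); for a fixed `I` the translate by
an independent random oracle is random.
-/

set_option autoImplicit false

namespace Pool.Agent.Results.MP_8d783e_lc.IndependentTranslates

open Pool.Agent.NPC Pool.Agent.H620R2.Gauge Pool.Agent.H622R2.Exp Filter
open Pool.Agent.TH733.RT (xor2 randomSeq tendsto_loglog)
open Pool.Agent.TH733 MeasureTheory

/-- `log log log N` -/
noncomputable def log3 (N : ℕ) : ℝ := Real.logb 2 (Real.logb 2 (Real.logb 2 (N : ℝ)))

theorem tendsto_log3 : Tendsto log3 atTop atTop :=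
  (Real.tendsto_logb_atTop (by norm_num)).comp tendsto_loglog

theorem log3_le {ε : ℝ} (hε : 0 < ε) :
    ∀ᶠ N : ℕ in atTop, log3 N ≤ ε * Real.logb 2 (Real.logb 2 N) := by
  have hlog2 := Real.log_pos (by norm_num : (1 : ℝ) < 2)
  have h1 := Real.isLittleO_log_id_atTop.bound (c := ε * Real.log 2) (by positivity)
  filter_upwards [tendsto_loglog.eventually h1,
    tendsto_loglog.eventually (eventually_ge_atTop 1)] with N h2 h3
  generalize hu : Real.logb 2 (Real.logb 2 (N : ℝ)) = u at *
  rw [id, Real.norm_of_nonneg (Real.log_nonneg h3), Real.norm_of_nonneg (by linarith)] at h2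
  unfold log3
  rw [hu, ← Real.log_div_log, div_le_iff₀ hlog2]
  linarith

theorem nullS : Null log3 {A : Oracle | ∀ L, InNTime Lin A L ↔ InNTime Lin A Lᶜ} :=
  (Pool.Agent.H249R3.Gau.resNE log3).1.2 fun _ hε => (log3_le hε).frequently

theorem ne_co {A : Oracle} (h : ∀ L, InSpace Lin A L → InTime Lin A L) (L : Set (List Bool)) :
    InNTime Lin A L ↔ InNTime Lin A Lᶜ := by
  have key : ∀ L : Set (List Bool), InNTime Lin A L → InNTime Lin A Lᶜ := fun L hL =>
    (RG.inTime_compl (h L (hL.isSpace good_Lin))).isNTime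
  refine ⟨key L, fun hL => ?_⟩
  have := key _ hL
  rwa [compl_compl] at this

theorem result :
    (∀ B : ℕ → Oracle, ∃ A : Oracle, ∀ i L,
      InNTime Lin (xor2 A (B i)) L ↔ InNTime Lin (xor2 A (B i)) Lᶜ) ∧
    ∀ᵐ B ∂randomSeq, ∀ I : Set ℕ, ∃ A : Oracle,
      (∀ i ∈ I, (∀ L, InTime Lin (xor2 A (B i)) L ↔ InSpace Lin (xor2 A (B i)) L) ∧
        ∀ L, InNTime Lin (xor2 A (B i)) L ↔ InNTime Lin (xor2 A (B i)) Lᶜ) ∧
      ∀ i ∉ I, ∃ L, InNTime Lin (xor2 A (B i)) L ∧ ¬ InNTime Lin (xor2 A (B i)) Lᶜ := by
  refine ⟨fun B => ?_, ?_⟩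
  · obtain ⟨A, hA⟩ := (RT.use_e good_Lin RT.null_empty').1 B
    exact ⟨A, fun i L => ne_co (hA i) L⟩
  · filter_upwards [RG.use_e good_Lin tendsto_log3 nullS] with B hB I
    obtain ⟨A, h3, h4⟩ := hB I
    refine ⟨A, fun i hi => ⟨fun L => ⟨fun h => h.isNTime.isSpace good_Lin, h3 i hi L⟩,
      fun L => ne_co (h3 i hi) L⟩, fun i hi => ?_⟩
    have h : ¬ ∀ L, InNTime Lin (xor2 A (B i)) L ↔ InNTime Lin (xor2 A (B i)) Lᶜ := h4 i hi
    push Not at h
    obtain ⟨L, hL⟩ := h
    rcases hL with ⟨h5, h6⟩ | ⟨h5, h6⟩
    · exact ⟨L, h5, h6⟩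
    · refine ⟨Lᶜ, h6, ?_⟩
      rwa [compl_compl]

end Pool.Agent.Results.MP_8d783e_lc.IndependentTranslates
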