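import Pool.Agent.TH565.OM.Sgp

/-!
# Asser's spectrum problem: commutative semigroups with constant triple products suffice

Definitions used: `LM` (the language of one binary function symbol), `mu` (the operation of a
structure for it) and `NilSg` in `Pool/Agent/TH565/OM/Sgp.lean`.
-/

set_option autoImplicit false

open FirstOrder Pool.Agent.TH686.SP Pool.Agent.TH195.SG Pool.Agent.TH565.OM

namespace Pool.Agent.Results.MP_8d783e_lc.NilSemigroups

/-- The complement of every spectrum is a spectrum (the text of `S15045`). -/
def Asser : Prop :=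
  ∀ (L : FirstOrder.Language.{0, 0}) (φ : L.Sentence),
    ∃ (L' : FirstOrder.Language.{0, 0}) (ψ : L'.Sentence),
      ∀ n : ℕ,
        (0 < n ∧ ∃ (M : Type) (_ : L'.Structure M), Nat.card M = n ∧ ψ.Realize M) ↔
          (0 < n ∧ ¬ ∃ (M : Type) (_ : L.Structure M), Nat.card M = n ∧ φ.Realize M)

/-- For every sentence `φ` about one binary operation, the complement of the set of sizes of the
models of `φ` whose operation is in the class `C` is a spectrum. -/
def AsserOver (C : ∀ M : Type, (M → M → M) → Prop) : Prop :=
  ∀ φ : LM.Sentence,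
    ∃ (L' : FirstOrder.Language.{0, 0}) (ψ : L'.Sentence),
      ∀ n : ℕ,
        (0 < n ∧ ∃ (M : Type) (_ : L'.Structure M), Nat.card M = n ∧ ψ.Realize M) ↔
          (0 < n ∧ ¬ ∃ (M : Type) (S : LM.Structure M), Nat.card M = n ∧ C M (mu M S) ∧
            φ.Realize M)

/-- Asser's problem has a positive answer if and only if it has one for spectra over finite
commutative semigroups in which all products of three elements and all squares are equal and at
most one other product occurs. Moreover, for every class `C` of binary operations which contains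
these finite semigroups, a positive answer for the spectra over `C` implies one for all spectra. -/
theorem result :
    (Asser ↔ AsserOver (fun _ m => NilSg m)) ∧
    (∀ C : ∀ M : Type, (M → M → M) → Prop,
      (∀ (M : Type) (m : M → M → M), Finite M → NilSg m → C M m) → AsserOver C → Asser) := by
  have key : ∀ {p q : Prop}, (p ∧ ¬ (p ∧ q)) ↔ (p ∧ ¬ q) := by
    intro p q
    tauto
  have k1 : Asser ↔ (∀ (L : FirstOrder.Language.{0, 0}) (φ : L.Sentence), Co (spec φ)) := by
    constructor
    · intro h L φ
      obtain ⟨L', ψ, h3⟩ := h L φ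
      exact ⟨L', ψ, fun n => (h3 n).trans key.symm⟩
    · intro h L φ
      obtain ⟨L', ψ, h3⟩ := h L φ
      exact ⟨L', ψ, fun n => (h3 n).trans key⟩
  have k2 : ∀ C : ∀ M : Type, (M → M → M) → Prop, AsserOver C ↔
      (∀ φ : LM.Sentence, Co (specIn (fun M S => C M (mu M S)) φ)) := by
    intro C
    constructor
    · intro h φ
      obtain ⟨L', ψ, h3⟩ := h φ
      exact ⟨L', ψ, fun n => (h3 n).trans key.symm⟩
    · intro h φ
      obtain ⟨L', ψ, h3⟩ := h φ
      exact ⟨L', ψ, fun n => (h3 n).trans key⟩
  refine ⟨?_, fun C hC h => ?_⟩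
  · rw [k1, k2]
    exact sg_main
  · rw [k1]
    exact sg_of_class (fun M S => C M (mu M S)) (fun M S hf h1 => hC M _ hf h1) ((k2 C).1 h)

end Pool.Agent.Results.MP_8d783e_lc.NilSemigroups
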