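import Pool.Agent.TH565.OM.LatMain

/-!
# Asser's spectrum problem: planar modular lattices suffice

Definitions used: `LP` (the language of one binary relation symbol) and `rl` (the binary relation
of a structure for it) in `Pool/Agent/TH686/SP/Pos.lean`; `ModLat` (modular lattices as partially
ordered sets) and `Dim2Le` (order dimension at most two) in `Pool/Agent/TH565/OM/Lat.lean`.
-/

set_option autoImplicit false

open FirstOrder Pool.Agent.TH686.SP Pool.Agent.TH195.SG Pool.Agent.TH565.OM

namespace Pool.Agent.Results.MP_8d783e_lc.PlanarModularLattices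

/-- The complement of every spectrum is a spectrum (the text of `S15045`). -/
def Asser : Prop :=
  ∀ (L : FirstOrder.Language.{0, 0}) (φ : L.Sentence),
    ∃ (L' : FirstOrder.Language.{0, 0}) (ψ : L'.Sentence),
      ∀ n : ℕ,
        (0 < n ∧ ∃ (M : Type) (_ : L'.Structure M), Nat.card M = n ∧ ψ.Realize M) ↔
          (0 < n ∧ ¬ ∃ (M : Type) (_ : L.Structure M), Nat.card M = n ∧ φ.Realize M)

/-- For every sentence `φ` about one binary relation, the complement of the set of sizes of the
models of `φ` in the class `C` is a spectrum. -/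
def AsserOver (C : ∀ M : Type, (M → M → Prop) → Prop) : Prop :=
  ∀ φ : LP.Sentence,
    ∃ (L' : FirstOrder.Language.{0, 0}) (ψ : L'.Sentence),
      ∀ n : ℕ,
        (0 < n ∧ ∃ (M : Type) (_ : L'.Structure M), Nat.card M = n ∧ ψ.Realize M) ↔
          (0 < n ∧ ¬ ∃ (M : Type) (S : LP.Structure M), Nat.card M = n ∧ C M (rl M S) ∧
            φ.Realize M)

/-- Asser's problem has a positive answer if and only if it has one for spectra over finite
modular lattices of order dimension at most two (planar modular lattices). Moreover, for every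
class `C` of binary relations which contains these finite lattices, a positive answer for the
spectra over `C` implies one for all spectra. -/
theorem result :
    (Asser ↔ AsserOver (fun _ r => ModLat r ∧ Dim2Le r)) ∧
    (∀ C : ∀ M : Type, (M → M → Prop) → Prop,
      (∀ (M : Type) (r : M → M → Prop), Finite M → ModLat r → Dim2Le r → C M r) →
      AsserOver C → Asser) := by
  have key : ∀ {p q : Prop}, (p ∧ ¬ (p ∧ q)) ↔ (p ∧ ¬ q) := by
    intro p q
    tauto
  have k1 : Asser ↔ (∀ (L : FirstOrder.Language.{0, 0}) (φ : L.Sentence), Co (spec φ)) := by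
    constructor
    · intro h L φ
      obtain ⟨L', ψ, h3⟩ := h L φ
      exact ⟨L', ψ, fun n => (h3 n).trans key.symm⟩
    · intro h L φ
      obtain ⟨L', ψ, h3⟩ := h L φ
      exact ⟨L', ψ, fun n => (h3 n).trans key⟩
  have k2 : ∀ C : ∀ M : Type, (M → M → Prop) → Prop, AsserOver C ↔
      (∀ φ : LP.Sentence, Co (specC C φ)) := by
    intro C
    constructor
    · intro h φ
      obtain ⟨L', ψ, h3⟩ := h φ
      exact ⟨L', ψ, fun n => (h3 n).trans key.symm⟩
    · intro h φ
      obtain ⟨L', ψ, h3⟩ := h φ
      exact ⟨L', ψ, fun n => (h3 n).trans key⟩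
  refine ⟨?_, fun C hC h => ?_⟩
  · rw [k1, k2]
    exact lat_main
  · rw [k1]
    exact lat_of_class C hC ((k2 C).1 h)

end Pool.Agent.Results.MP_8d783e_lc.PlanarModularLattices
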